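import Pool.Agent.X157.W.Uni3
import Pool.Agent.TH167.SH.Fam

set_option autoImplicit false

/-!
# Uniform fat points: (multiple) common factors of the nonzero systems

Let `r ≥ 10`, let `P` be `r` very general points of the complex projective plane and let
`[I ^ (m)]_d` be the space of the forms of degree `d` with multiplicity at least `m` at the points.
Let `[I ^ (m)]_d ≠ 0`, let `F` be irreducible and let `F ^ s`, `s ≥ 1`, divide all elements of
`[I ^ (m)]_d`. Then there are `f`, `φ ≥ 1` and a form `A` with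

* `A` divides all elements of `[I ^ (m)]_d`, has multiplicity exactly `φ` at all points and spans
  `[I ^ (φ)]_f`; `A` is `F`, or `A` is the product of `r` irreducible forms `G i` of degree `deg F`,
  one of which is `F`, where `G i` has multiplicity `x` at the point `i` and `y ≠ x` at the others;
* `0 < f ^ 2 - r φ ^ 2` and `s (f ^ 2 - r φ ^ 2) ≤ r φ - 3 f`, and `F · K > 0`;
* `AH₂(k f)` FAILS for the multiplicity `k φ`, for `1 ≤ k < s`;
* either `[I ^ (m)]_d` is one dimensional and `f = d`, or `f < d`, `φ < m` and `AH₂(f)` fails for `φ` or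
  `AH₂(d - f)` fails for `m - φ`.
-/

namespace Pool.Agent.Results.MP_8707bd_ag.CommonFactors

open MvPolynomial Pool.Agent.TH167 Pool.Agent.TH167.SHDefs Pool.Agent.X157.W
  Pool.Agent.W609.CR

/-- `m Y` is `AH₂(d)` for the set `Y` of the points `P i`: the space of the forms of degree `d` with
multiplicity at least `m` at the points has the expected dimension. -/
def AH {r : ℕ} (P : Fin r → Fin 2 → ℂ) (m d : ℕ) : Prop :=
  Module.finrank ℂ ↥(sys P d (fun _ => m)) = (d + 2).choose 2 - r * (m + 1).choose 2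

/-- `A`, of degree `f` and multiplicity `φ`, is the orbit of the curve `F`: `A = F`, or `A` is the
product of `r` irreducible forms `G i` of one degree `e`, one of which is `F`, where `G i` has
multiplicity `x` at the point `i` and `y ≠ x` at the other points. -/
def IsOrbit {r : ℕ} (P : Fin r → Fin 2 → ℂ) (φ f : ℕ) (F A : MvPolynomial (Fin 3) ℂ) : Prop :=
  A = F ∨ ∃ (e y x : ℕ) (G : Fin r → MvPolynomial (Fin 3) ℂ), x ≠ y ∧ r * e = f ∧
    (r - 1) * y + x = φ ∧ A = ∏ i, G i ∧ (∃ i, G i = F) ∧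
    ∀ i, Curve P (G i) e (fun j => if j = i then x else y)

theorem sp_ah {n : ℕ} {P : Fin n → Fin 2 → ℂ} {m d : ℕ} : Sp P d m ↔ ¬ AH P m d := by
  rw [sp_iff]
  have hc : ∑ _j : Fin n, (m + 1).choose 2 = n * (m + 1).choose 2 := by
    rw [Finset.sum_const, Finset.card_univ, Fintype.card_fin, smul_eq_mul]
  unfold H932R3.ExpDim AH
  rw [hc]
  exact Iff.rfl

theorem result (r : ℕ) (hr : 10 ≤ r) :
    ∃ Z : ℕ → MvPolynomial (Fin r × Fin 2) ℂ, (∀ k, Z k ≠ 0) ∧
      ∀ P : Fin r → Fin 2 → ℂ,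
        (∀ k, MvPolynomial.eval (fun ij : Fin r × Fin 2 => P ij.1 ij.2) (Z k) ≠ 0) →
        ∀ m d : ℕ, sys P d (fun _ => m) ≠ ⊥ →
          ∀ s : ℕ, 1 ≤ s → ∀ F : MvPolynomial (Fin 3) ℂ, Irreducible F →
            (∀ G ∈ sys P d (fun _ => m), F ^ s ∣ G) →
            (∃ (e : ℕ) (u : Fin r → ℕ), Curve P F e u ∧ 0 < interK e u) ∧
            ∃ (f φ : ℕ) (A : MvPolynomial (Fin 3) ℂ),
              (1 ≤ φ ∧ A ≠ 0 ∧ A ∈ sys P f (fun _ => φ) ∧ (∀ i, A ∉ pt (P i) ^ (φ + 1)) ∧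
                Module.finrank ℂ ↥(sys P f (fun _ => φ)) = 1 ∧
                (∀ G ∈ sys P d (fun _ => m), A ∣ G) ∧ IsOrbit P φ f F A) ∧
              (0 < (f : ℤ) ^ 2 - r * φ ^ 2 ∧
                (s : ℤ) * ((f : ℤ) ^ 2 - r * φ ^ 2) ≤ r * φ - 3 * f) ∧
              (∀ k, 1 ≤ k → k < s → ¬ AH P (k * φ) (k * f)) ∧
              ((f = d ∧ Module.finrank ℂ ↥(sys P d (fun _ => m)) = 1) ∨
                (f < d ∧ φ < m ∧ (¬ AH P φ f ∨ ¬ AH P (m - φ) (d - f)))) := by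
  obtain ⟨Z, hZ, h⟩ := SH.exists_fam (Fin r × Fin 2)
  refine ⟨Z, hZ, fun P hP0 m d hne s hs G hG hGF => ?_⟩
  have hP : Gen P := (h _).1 hP0
  simp only [SH.sys_eq] at hne hGF ⊢
  obtain ⟨F, hF, hF0⟩ := (Submodule.ne_bot_iff _).1 hne
  have hGd : ∀ F ∈ VS (fun j => aff (P j)) (fun _ => m) d, G ∣ F := fun F' hF' =>
    dvd_trans (dvd_pow_self G (by omega)) (hGF F' hF')
  have hGe := Pool.Agent.Chud.homog_of_dvd ((SH.mem_VS _ _ _ _).1 hF).1 hF0 (hGd F hF)
  choose u hu using fun j => TT.exists_ord (p := P j) hG.ne_zero hGe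
  obtain ⟨f, φ, A, hf, hA, hAd, hA1, hcl⟩ := exists_orb2 hP hF0 hF ⟨hG, hGe, hu, hGd⟩
  have hcase : (f = G.totalDegree ∧ u = fun _ => φ) ∨ ∃ (y x : ℕ) (i0 : Fin r), x ≠ y ∧
      f = r * G.totalDegree ∧ φ = (r - 1) * y + x ∧ u = fun j => if j = i0 then x else y := by
    rcases hcl with ⟨g1, g2, g3⟩ | ⟨y, x, G', i0, g1, g2, g3, g4, g5, g6, g7⟩
    · exact Or.inl ⟨g2, g3⟩
    · exact Or.inr ⟨y, x, i0, g1, g2, g3, g6⟩
  have hpow : ∀ k, k ≤ s →
      Module.finrank ℂ ↥(VS (fun j => aff (P j)) (fun _ : Fin r => k * φ) (k * f)) = 1 := by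
    intro k hk
    exact pow_dim hP hF0 hF (k := k) ⟨hG, hGe, hu, fun F' hF' =>
      dvd_trans (pow_dvd_pow G hk) (hGF F' hF')⟩ hcase
  obtain ⟨n1, n2, n3⟩ := orb_num hr hP hf hA1
  have n4 := pow_num hs (hpow s le_rfl)
  refine ⟨⟨G.totalDegree, u, SH.curve_iff.2 ⟨hG, hGe, hu⟩, ?_⟩, f, φ, A,
    ⟨n1, hA.ne, (SH.mem_VS _ _ _ _).2 ⟨hA.hom, fun j => (hA.ord j).1⟩, fun i hi =>
      (hA.ord i).2 ((t_link ℂ (P i) (φ + 1) A f hA.hom).2 hi), by rw [SH.sys_eq]; exact hA1,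
      hAd, ?_⟩, ⟨n2, n4⟩, ?_, ?_⟩
  · -- the canonical class
    have hr0 : (0 : ℤ) < r := by
      have : 0 < r := by omega
      exact_mod_cast this
    have hpos : (0 : ℤ) < r * φ - 3 * f := lt_of_lt_of_le n2 n3
    unfold interK
    rcases hcase with ⟨g1, g2⟩ | ⟨y, x, i0, g1, g2, g3, g4⟩
    · rw [g2, ← g1, Finset.sum_const, Finset.card_univ, Fintype.card_fin, nsmul_eq_mul]
      linarith
    · have h1 : ∑ i, ((u i : ℕ) : ℤ) = φ := by
        have h2 : ∑ i, u i = φ := by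
          rw [g3, g4, ← sum_ite_uni i0 x y]
        exact_mod_cast h2
      rw [h1]
      have h3 : (f : ℤ) = r * G.totalDegree := by exact_mod_cast g2
      rw [h3] at hpos
      have h4 : (0 : ℤ) < r * (-3 * G.totalDegree + φ) := by linarith
      exact (mul_pos_iff_of_pos_left hr0).1 h4
  · rcases hcl with ⟨g1, g2, g3⟩ | ⟨y, x, G', i0, g1, g2, g3, g4, g5, g6, g7⟩
    · exact Or.inl g1
    · exact Or.inr ⟨G.totalDegree, y, x, G', g1, g2.symm, g3.symm, g4, ⟨i0, g5⟩, fun i =>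
        SH.curve_iff.2 (g7 i)⟩
  · intro k hk hks
    exact sp_ah.1 (pow_sp n2 n4 hk hks (hpow k hks.le))
  · rcases common hr hP hF0 hF hf hA hAd hA1 with h1 | ⟨h1, h2, h3⟩
    · exact Or.inl ⟨h1.1, by rw [SH.sys_eq]; exact h1.2⟩
    · exact Or.inr ⟨h1, h2, h3.imp sp_ah.1 sp_ah.1⟩

end Pool.Agent.Results.MP_8707bd_ag.CommonFactors
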