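import Pool.Agent.X157.W.GcdNum
import Pool.Agent.TH167.SH.Fam

set_option autoImplicit false

/-!
# Uniform fat points: fixed parts occur only near the Nagata ray

Let `r ≥ 10`, let `P` be `r` very general points of the complex projective plane and let
`[I ^ (m)]_d ≠ 0`, the space of the forms of degree `d` with multiplicity at least `m` at the
points. Let `B`, of degree `β`, be the greatest common divisor of its elements. Then

* `B` has the same multiplicity `b` at all points, `[I ^ (b)]_β` is spanned by `B`,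
  `[I ^ (m)]_d = B · [I ^ (m - b)]_(d - β)`, and the elements of `[I ^ (m - b)]_(d - β)` have no common factor;
* `β = 0`, or `√r b < β < √r b + (√r - 3) / 2`;
* if `β > 0`, then `d < √r m + √r - 3 + min (√r - 3) (2 / 3 + 1 / (4 √r)) / 2`, and `[I ^ (m)]_d` is one
  dimensional or `AH₂` fails for `(b, β)` or for `(m - b, d - β)`.

So there is no common factor at all for `d ≥ √r m + √r - 3 + min (√r - 3) (2 / 3 + 1 / (4 √r)) / 2`.
-/

namespace Pool.Agent.Results.MP_8707bd_ag.FixedPartWindow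

open MvPolynomial Pool.Agent.TH167 Pool.Agent.TH167.SHDefs Pool.Agent.X157.W
  Pool.Agent.W609.CR

/-- `m Y` is `AH₂(d)` for the set `Y` of the points `P i`: the space of the forms of degree `d` with
multiplicity at least `m` at the points has the expected dimension. -/
def AH {r : ℕ} (P : Fin r → Fin 2 → ℂ) (m d : ℕ) : Prop :=
  Module.finrank ℂ ↥(sys P d (fun _ => m)) = (d + 2).choose 2 - r * (m + 1).choose 2

theorem sp_ah {n : ℕ} {P : Fin n → Fin 2 → ℂ} {m d : ℕ} : Sp P d m ↔ ¬ AH P m d := by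
  rw [sp_iff]
  have hc : ∑ _j : Fin n, (m + 1).choose 2 = n * (m + 1).choose 2 := by
    rw [Finset.sum_const, Finset.card_univ, Fintype.card_fin, smul_eq_mul]
  unfold H932R3.ExpDim AH
  rw [hc]
  exact Iff.rfl

theorem result (r : ℕ) (hr : 10 ≤ r) :
    ∃ Z : ℕ → MvPolynomial (Fin r × Fin 2) ℂ, (∀ k, Z k ≠ 0) ∧
      ∀ P : Fin r → Fin 2 → ℂ,
        (∀ k, MvPolynomial.eval (fun ij : Fin r × Fin 2 => P ij.1 ij.2) (Z k) ≠ 0) →
        ∀ m d : ℕ, sys P d (fun _ => m) ≠ ⊥ →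
          ∃ (β b : ℕ) (B : MvPolynomial (Fin 3) ℂ),
            (β ≤ d ∧ B ≠ 0 ∧ B ∈ sys P β (fun _ => b) ∧ (∀ i, B ∉ pt (P i) ^ (b + 1)) ∧
              Module.finrank ℂ ↥(sys P β (fun _ => b)) = 1) ∧
            (∀ F, F ∈ sys P d (fun _ => m) ↔
              ∃ H ∈ sys P (d - β) (fun _ => m - b), F = B * H) ∧
            (∀ G, (∀ H ∈ sys P (d - β) (fun _ => m - b), G ∣ H) → IsUnit G) ∧
            (0 < β → 1 ≤ b ∧ √(r : ℝ) * b < β ∧ β < √(r : ℝ) * b + (√(r : ℝ) - 3) / 2 ∧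
              d < √(r : ℝ) * m + (√(r : ℝ) - 3) +
                min (√(r : ℝ) - 3) (2 / 3 + 1 / (4 * √(r : ℝ))) / 2 ∧
              ((β = d ∧ Module.finrank ℂ ↥(sys P d (fun _ => m)) = 1) ∨
                (β < d ∧ b < m ∧ (¬ AH P b β ∨ ¬ AH P (m - b) (d - β))))) := by
  obtain ⟨Z, hZ, h⟩ := SH.exists_fam (Fin r × Fin 2)
  refine ⟨Z, hZ, fun P hP0 m d hne => ?_⟩
  have hP : Gen P := (h _).1 hP0
  simp only [SH.sys_eq] at hne
  obtain ⟨F, hF, hF0⟩ := (Submodule.ne_bot_iff _).1 hne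
  obtain ⟨β, b, B, h1, h2, h3, h4, h5, h6⟩ := exists_fixed hP d m ⟨F, hF, hF0⟩
  have hB1 : Module.finrank ℂ ↥(VS (fun j => aff (P j)) (fun _ : Fin r => b) β) = 1 :=
    fixed_rigid (b := fun _ => b) hF0 hF h2 h3 h4 h5
  refine ⟨β, b, B, ⟨h1, h2, ?_, fun i hi => (h4 i).2 ((t_link ℂ (P i) (b + 1) B β h3).2 hi),
    by rw [SH.sys_eq]; exact hB1⟩, fun F' => ⟨fun hF' => ?_, ?_⟩, fun G hG => ?_, fun hβ => ?_⟩
  · rw [SH.sys_eq]
    exact (SH.mem_VS _ _ _ _).2 ⟨h3, fun j => (h4 j).1⟩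
  · rw [SH.sys_eq] at hF'
    by_cases hF0' : F' = 0
    · exact ⟨0, Submodule.zero_mem _, by rw [hF0', mul_zero]⟩
    obtain ⟨H, hH⟩ := h5 F' hF'
    obtain ⟨-, hH1⟩ := TT.mem_of_factor hF' hF0' h3 h4 hH
    exact ⟨H, by rw [SH.sys_eq]; exact hH1, hH⟩
  · rintro ⟨H, hH, rfl⟩
    rw [SH.sys_eq] at hH ⊢
    have hH' := (SH.mem_VS _ _ _ _).1 hH
    refine (SH.mem_VS _ _ _ _).2 ⟨?_, fun j => ?_⟩
    · have h7 := h3.mul hH'.1
      rwa [Nat.add_sub_cancel' h1] at h7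
    · exact SH.van_mono (by omega) (SH.van_mul (h4 j).1 (hH'.2 j))
  · by_contra hu
    have hG0 : G ≠ 0 := by
      intro h0
      obtain ⟨H, hH⟩ := h5 F hF
      obtain ⟨-, hH1⟩ := TT.mem_of_factor hF hF0 h3 h4 hH
      have h7 := hG H (by rw [SH.sys_eq]; exact hH1)
      rw [h0, zero_dvd_iff] at h7
      exact hF0 (by rw [hH, h7, mul_zero])
    obtain ⟨G', hG', hd⟩ := WfDvdMonoid.exists_irreducible_factor hu hG0
    obtain ⟨H, hH, hH'⟩ := h6 G' hG'
    exact hH' (dvd_trans hd (hG H (by rw [SH.sys_eq]; exact hH)))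
  · obtain ⟨n1, -, -⟩ := orb_num hr hP hβ hB1
    have k1 := nag hr hP (m := b) (d := β) (by rw [hB1]; exact one_pos) n1
    have k2 := one_hi hr hB1
    have hRg : Rg P β b B := ⟨h2, h3, h4⟩
    refine ⟨n1, k1, k2, fixed_hi hr hP hF0 hF hβ hRg h5 hB1, ?_⟩
    rcases common' hr hP hF0 hF hβ hRg h5 hB1 with h7 | ⟨h7, h8, h9⟩
    · exact Or.inl ⟨h7.1, by rw [SH.sys_eq]; exact h7.2⟩
    · exact Or.inr ⟨h7, h8, h9.imp sp_ah.1 sp_ah.1⟩

end Pool.Agent.Results.MP_8707bd_ag.FixedPartWindow
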