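import Mathlib
import Pool.Agent.Results.MP_8707bd_ag.AllDegreesPositiveProportion
import Pool.Agent.X134.UD.Seq
import Pool.Agent.X134.UD.Sparse
import Pool.Agent.X134.UD.Primes

set_option autoImplicit false

/-!
# Uniform fat points: `AH₂(d)` for ALL degrees `d`, along squares, primes and sparse sequences of multiplicities

Let `r ≥ 10` not be a perfect square (the open numbers are `10, 11, 12, 14, 15, 17, ..., 35`; from `37` on, and for
`13` and `21`, everything is settled by the starting result `EquivalenceFromThirtySeven`). The starting result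
`AllDegreesPositiveProportion` bounds by `bad r < 1` the upper density of the multiplicities `m` for which, for
general `Y` with `|Y| = r`, the scheme `m Y` is not `AH₂(d)` for some degree `d`. Here the same bound holds

* along EVERY sequence `m = x_n` for which the Weyl sums of `√r x_n` are `o(N)`;
* for the values of EVERY nonconstant integral polynomial (the squares, the cubes, ...);
* for the PRIMES (the density is taken among the primes);
* for the sequences `⌊α n ^ c⌋`, `c > 1`, which are arbitrarily sparse: for all `α > 0` outside one set `E` of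
  Hausdorff dimension less than `1`, for all `r` at once.

Proof. A multiplicity `m` which is not good has an integer within a bounded distance from `√r m + (√r - 3) / 2`
(`exp_uni2`); Weyl's criterion, Weyl's theorem for polynomials, Vinogradov's theorem (`√r` is badly approximable)
and the covering argument.
-/

namespace Pool.Agent.Results.MP_8707bd_ag.SparseMultiplicities

open AllDegreesPositiveProportion Pool.Agent.X134.UD
open Pool.Agent.H534R3.UDist (Weyl)
open Polynomial (X)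

/-- `m` is a multiplicity such that for `r` general points `Y` the scheme `m Y` is not `AH₂(d)` for some `d` -/
def Bad (r m : ℕ) : Prop := 0 < m ∧ ¬ AllDegrees r m

theorem window_all {r : ℕ} (hr : 10 ≤ r) (m : ℕ) (h : Bad r m) :
    ∃ D : ℤ, Real.sqrt r * m + (Real.sqrt r - 3) / 2 - TH885.NW.loW r / 2 ≤ D ∧
      (D : ℝ) ≤ Real.sqrt r * m + (Real.sqrt r - 3) / 2 + TH885.NW.upW r / 2 := by
  obtain ⟨hm, hbad⟩ := h
  obtain ⟨d, h1, h2⟩ : ∃ d : ℕ, -TH885.NW.loW r ≤ 2 * (d : ℝ) + 3 - Real.sqrt r * (2 * m + 1) ∧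
      2 * (d : ℝ) + 3 - Real.sqrt r * (2 * m + 1) ≤ TH885.NW.upW r := by
    by_contra hcon
    push Not at hcon
    apply hbad
    obtain ⟨F, hF, hF'⟩ := TH885.NW.exp_uni2 (L := ℂ) hr hm
    refine allDegrees_of ⟨F, hF, fun P hP d => hF' P hP d ?_⟩
    rcases le_or_gt (-TH885.NW.loW r) (2 * (d : ℝ) + 3 - Real.sqrt r * (2 * m + 1)) with h4 | h4
    · exact Or.inl (hcon d h4)
    · exact Or.inr h4
  refine ⟨d, ?_, ?_⟩ <;> push_cast <;> linarith

theorem bad_eq (r : ℕ) : bad r = TH885.NW.loW r / 2 + TH885.NW.upW r / 2 := by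
  unfold bad TH885.NW.loW TH885.NW.upW
  ring

theorem result :
    (∀ r : ℕ, 10 ≤ r → ¬ IsSquare r →
      (∀ x : ℕ → ℕ, Weyl (fun n => Real.sqrt r * x n) → UpperLE (fun n => Bad r (x n)) (bad r)) ∧
      (∀ P : Polynomial ℤ, 1 ≤ P.natDegree →
        UpperLE (fun n => ∃ m : ℕ, (m : ℤ) = P.eval (n : ℤ) ∧ Bad r m) (bad r)) ∧
      UpperLEPrimes (Bad r) (bad r)) ∧
    (∀ c : ℝ, 1 < c → ∃ κ : ℝ, 0 < κ ∧ κ < 1 ∧ ∃ E : Set ℝ, dimH E ≤ ENNReal.ofReal (1 - κ) ∧
      ∀ α : ℝ, 0 < α → α ∉ E → ∀ r : ℕ, 10 ≤ r → ¬ IsSquare r →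
        UpperLE (fun n => Bad r ⌊α * (n : ℝ) ^ c⌋₊) (bad r)) ∧
    (∀ r : ℕ, 10 ≤ r → bad r < 1) ∧ bad 10 < 0.163 := by
  classical
  have h0 : ∀ r : ℕ, 10 ≤ r → 0 ≤ TH885.NW.loW r / 2 + TH885.NW.upW r / 2 := fun r hr => by
    obtain ⟨h1, h2, h3⟩ := TH885.NW.win_len hr
    linarith
  have main : ∀ r : ℕ, 10 ≤ r → ¬ IsSquare r →
      ((∀ x : ℕ → ℕ, Weyl (fun n => Real.sqrt r * x n) → UpperLE (fun n => Bad r (x n)) (bad r)) ∧
      (∀ P : Polynomial ℤ, 1 ≤ P.natDegree →
        UpperLE (fun n => ∃ m : ℕ, (m : ℤ) = P.eval (n : ℤ) ∧ Bad r m) (bad r)) ∧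
      UpperLE (Bad r) (bad r)) ∧ UpperLEPrimes (Bad r) (bad r) := by
    intro r hr hsq
    have hirr : Irrational (Real.sqrt r) := irrational_sqrt_natCast_iff.2 hsq
    rw [bad_eq]
    exact ⟨sequences hirr (h0 r hr) (Bad r) (window_all hr),
      primes (badly_sqrt hsq) (h0 r hr) (Bad r) (window_all hr)⟩
  refine ⟨fun r hr hsq => ?_, fun c hc => ?_, fun r hr => ?_, bad_ten⟩
  · obtain ⟨⟨a1, a2, -⟩, a4⟩ := main r hr hsq
    exact ⟨a1, a2, a4⟩
  · obtain ⟨κ, hκ0, hκ1, H⟩ := sparse c hc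
    obtain ⟨E, hE, hh⟩ := H ℕ Bad
    exact ⟨κ, hκ0, hκ1, E, hE, fun α hα hαE r hr hsq =>
      hh α hα hαE r _ (by rw [bad_eq]; exact h0 r hr) (main r hr hsq).1.2.2⟩
  · obtain ⟨h1, h2, h3⟩ := TH885.NW.win_len hr
    rw [bad_eq]
    linarith

end Pool.Agent.Results.MP_8707bd_ag.SparseMultiplicities
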