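import Pool.Agent.X157.W.Mov
import Pool.Agent.X157.W.Uni3
import Pool.Agent.X157.H.Irr
import Pool.Agent.TH167.SH.Fam

set_option autoImplicit false

/-!
# Uniform fat points: every system of dimension at least two contains an irreducible form

Let `r ≥ 37`, or `r = 11, 13, 15, 21`, or let `r ≥ 16` be a square, let `P` be `r` very general points
of the complex projective plane, let `m ≥ 1` and let `[I ^ (m)]_d` be the space of the forms of degree
`d` with multiplicity at least `m` at the points.

1. If `dim [I ^ (m)]_d ≥ 2`, then `[I ^ (m)]_d` contains an IRREDUCIBLE form with multiplicity exactly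
   `m` at all points, and no nonconstant form divides all elements of `[I ^ (m)]_d`. In particular no
   power of an irreducible form does.
2. If `dim [I ^ (m)]_d = 1`, and `r` is not `11` or `15`, then `r m (m + 1) = d (d + 3)`, the
   system is spanned by a form `A` with multiplicity exactly `m` at all points, and `A` is irreducible or
   the product of `r` irreducible forms `G i` of degree `d / r`, with multiplicity `x` at the point `i`
   and `y ≠ x` at the other points.

So for these `r` the fixed parts and the general members of all uniform systems are known.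

Proof of 1: add simple points until the system is rigid; the irreducible curve `A` of the rigid class
`D = A + M` through the last simple point is symmetric in the `r` points, and if `M` is not zero, then
`A`, `M` and `D` are not special, so that `A M = 0`, which Nagata's inequality excludes; for `r = 11, 15`
and a uniform `M`, which could be special, `A` is above the threshold and `A M + χ (M) > 1`.
-/

namespace Pool.Agent.Results.MP_8707bd_ag.UniformIrreducible

open MvPolynomial Pool.Agent.TH167 Pool.Agent.TH167.SHDefs Pool.Agent.X157.W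
  Pool.Agent.W609.CR

/-- `A` is the orbit of one irreducible curve: `A` is irreducible, or the product of `r` irreducible
forms of one degree `e`, where the form `G i` has multiplicity `x` at the point `i` and `y ≠ x` at the
other points. -/
def OrbitProduct {r : ℕ} (P : Fin r → Fin 2 → ℂ) (m d : ℕ) (A : MvPolynomial (Fin 3) ℂ) : Prop :=
  Irreducible A ∨ ∃ (e y x : ℕ) (G : Fin r → MvPolynomial (Fin 3) ℂ), x ≠ y ∧ r * e = d ∧
    (r - 1) * y + x = m ∧ A = ∏ i, G i ∧ ∀ i, Curve P (G i) e (fun j => if j = i then x else y)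

theorem result (r : ℕ) (hr : 10 ≤ r)
    (hC : 37 ≤ r ∨ r = 11 ∨ r = 13 ∨ r = 15 ∨ r = 21 ∨ IsSquare r) :
    ∃ Z : ℕ → MvPolynomial (Fin r × Fin 2) ℂ, (∀ k, Z k ≠ 0) ∧
      ∀ P : Fin r → Fin 2 → ℂ,
        (∀ k, MvPolynomial.eval (fun ij : Fin r × Fin 2 => P ij.1 ij.2) (Z k) ≠ 0) →
        ∀ m d : ℕ, 1 ≤ m →
          (2 ≤ Module.finrank ℂ ↥(sys P d (fun _ => m)) →
            (∃ G, Curve P G d (fun _ => m)) ∧
            ∀ G : MvPolynomial (Fin 3) ℂ, (∀ F ∈ sys P d (fun _ => m), G ∣ F) → IsUnit G) ∧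
          (Module.finrank ℂ ↥(sys P d (fun _ => m)) = 1 → r ≠ 11 → r ≠ 15 →
            r * (m * (m + 1)) = d * (d + 3) ∧
            ∃ A ∈ sys P d (fun _ => m), A ≠ 0 ∧ (∀ i, A ∉ pt (P i) ^ (m + 1)) ∧
              OrbitProduct P m d A) := by
  obtain ⟨Z, hZ, h⟩ := SH.exists_fam (Fin r × Fin 2)
  refine ⟨Z, hZ, fun P hP0 m d hm => ?_⟩
  have hP : Gen P := (h _).1 hP0
  have key : ∀ F0 ∈ VS (fun j => aff (P j)) (fun _ : Fin r => m) d, F0 ≠ 0 →
      ∀ G : MvPolynomial (Fin 3) ℂ, Irreducible G →
      (∀ F ∈ VS (fun j => aff (P j)) (fun _ : Fin r => m) d, G ∣ F) →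
      ∃ (f φ : ℕ) (A : MvPolynomial (Fin 3) ℂ), 0 < f ∧ Orb P f φ A ∧
        (∀ F ∈ VS (fun j => aff (P j)) (fun _ : Fin r => m) d, A ∣ F) ∧
        Module.finrank ℂ ↥(VS (fun j => aff (P j)) (fun _ : Fin r => φ) f) = 1 := by
    intro F0 hF hF0 G hG hGd
    have hGe := Pool.Agent.Chud.homog_of_dvd ((SH.mem_VS _ _ _ _).1 hF).1 hF0 (hGd F0 hF)
    choose u hu using fun j => TT.exists_ord (p := P j) hG.ne_zero hGe
    obtain ⟨f, φ, A, hf, hA, hAd, hA1, -⟩ := exists_orb2 hP hF0 hF ⟨hG, hGe, hu, hGd⟩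
    exact ⟨f, φ, A, hf, hA, hAd, hA1⟩
  have hfin := vs_fin (fun j => aff (P j)) (fun _ : Fin r => m) d
  constructor
  · intro hdim
    rw [SH.sys_eq] at hdim
    refine ⟨?_, fun G hG1 => ?_⟩
    · have hCU : Pool.Agent.X157.H.Uns r ∨ r = 11 ∨ r = 15 := by
        rcases hC with h | h | h | h | h | h
        · exact Or.inl (Pool.Agent.X157.H.uns_of hr (Or.inl h))
        · exact Or.inr (Or.inl h)
        · exact Or.inl (Pool.Agent.X157.H.uns_of hr (Or.inr (Or.inl h)))
        · exact Or.inr (Or.inr h)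
        · exact Or.inl (Pool.Agent.X157.H.uns_of hr (Or.inr (Or.inr (Or.inl h))))
        · exact Or.inl (Pool.Agent.X157.H.uns_of hr (Or.inr (Or.inr (Or.inr h))))
      obtain ⟨G, g1, g2, g3⟩ := Pool.Agent.X157.H.irr_full hr hCU d m hm
        (Module.finrank ℂ ↥(VS (fun j => aff (P j)) (fun _ : Fin r => m) d) - 1) r P hP
        Finset.univ (by rw [Finset.card_univ, Fintype.card_fin]) (fun _ => m) (fun _ _ => rfl)
        (fun j hj => absurd (Finset.mem_univ j) hj) (Or.inr (by omega)) (by omega)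
      exact ⟨G, SH.curve_iff.2 ⟨g1, g2, g3⟩⟩
    have hG : ∀ F ∈ VS (fun j => aff (P j)) (fun _ : Fin r => m) d, G ∣ F := fun F hF =>
      hG1 F (by rw [SH.sys_eq]; exact hF)
    by_contra hu
    obtain ⟨⟨F0, hF⟩, hF0⟩ : ∃ F : ↥(VS (fun j => aff (P j)) (fun _ : Fin r => m) d), F ≠ 0 := by
      have h0 : 0 < Module.finrank ℂ ↥(VS (fun j => aff (P j)) (fun _ : Fin r => m) d) := by omega
      have : Nontrivial ↥(VS (fun j => aff (P j)) (fun _ : Fin r => m) d) :=
        Module.finrank_pos_iff.1 h0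
      exact exists_ne 0
    have hF0' : F0 ≠ 0 := fun h => hF0 (Subtype.ext h)
    have hG0 : G ≠ 0 := by
      intro h0
      have h2 := hG F0 hF
      rw [h0, zero_dvd_iff] at h2
      exact hF0' h2
    obtain ⟨G', hG', hd⟩ := WfDvdMonoid.exists_irreducible_factor hu hG0
    obtain ⟨f, φ, A, hf, hA, hAd, hA1⟩ := key F0 hF hF0' G' hG' (fun F hF => dvd_trans hd (hG F hF))
    exact no_fixed hr hC hP hdim hf ⟨hA.ne, hA.hom, hA.ord⟩ hAd hA1
  · intro hdim h11 h15
    rw [SH.sys_eq] at hdim
    have hC' : 37 ≤ r ∨ r = 13 ∨ r = 21 ∨ IsSquare r := by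
      rcases hC with h | h | h | h | h | h
      · exact Or.inl h
      · exact absurd h h11
      · exact Or.inr (Or.inl h)
      · exact absurd h h15
      · exact Or.inr (Or.inr (Or.inl h))
      · exact Or.inr (Or.inr (Or.inr h))
    obtain ⟨v, hv0, hv⟩ := finrank_eq_one_iff'.1 hdim
    have hvne : v.1 ≠ 0 := fun h0 => hv0 (Subtype.ext h0)
    have hvhom : v.1.IsHomogeneous d := ((SH.mem_VS _ _ _ _).1 v.2).1
    have hd0 : 0 < d := by
      have h4 := SH.van_le hvne hvhom (((SH.mem_VS _ _ _ _).1 v.2).2 ⟨0, by omega⟩)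
      omega
    have hu : ¬ IsUnit v.1 := by
      intro hu
      have h6 := (MvPolynomial.isUnit_iff_totalDegree_of_isReduced.1 hu).2
      rw [hvhom.totalDegree hvne] at h6
      omega
    obtain ⟨G', hG', hd⟩ := WfDvdMonoid.exists_irreducible_factor hu hvne
    obtain ⟨f, φ, A, hf, hA, hAd, hA1⟩ := key v.1 v.2 hvne G' hG' (fun F hF => by
      obtain ⟨c, hc⟩ := hv ⟨F, hF⟩
      have h7 : F = c • v.1 := (congrArg Subtype.val hc).symm
      rw [h7, MvPolynomial.smul_eq_C_mul]
      exact Dvd.dvd.mul_left hd _)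
    have hRg : Rg P f φ A := ⟨hA.ne, hA.hom, hA.ord⟩
    have hfd : f = d := by
      rcases common' hr hP hvne v.2 hf hRg hAd hA1 with h1 | ⟨-, -, h3⟩
      · exact h1.1
      · rcases h3 with h3 | h3
        · exact absurd h3 (not_sp hr hC' hP _ _)
        · exact absurd h3 (not_sp hr hC' hP _ _)
    subst hfd
    have hc1 : SH.chi f (fun _ : Fin r => m) = 1 := by
      refine le_antisymm ?_ ?_
      · have := SH.chi_le_dim P f (fun _ : Fin r => m)
        rw [hdim] at this
        exact_mod_cast this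
      · by_contra hc
        push Not at hc
        exact not_sp hr hC' hP m f ⟨by rw [hdim]; exact one_pos, by rw [hdim]; exact_mod_cast hc⟩
    have hc2 : SH.chi f (fun _ : Fin r => φ) = 1 := by
      refine le_antisymm ?_ ?_
      · have := SH.chi_le_dim P f (fun _ : Fin r => φ)
        rw [hA1] at this
        exact_mod_cast this
      · by_contra hc
        push Not at hc
        exact not_sp hr hC' hP φ f ⟨by rw [hA1]; exact one_pos, by rw [hA1]; exact_mod_cast hc⟩
    have t1 := SH.two_chi f (fun _ : Fin r => m)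
    have t2 := SH.two_chi f (fun _ : Fin r => φ)
    rw [ip_const, kk_const, hc1] at t1
    rw [ip_const, kk_const, hc2] at t2
    have e1 : (r : ℤ) * (m * (m + 1)) = f * (f + 3) := by linear_combination t1
    have e2 : (r : ℤ) * (φ * (φ + 1)) = f * (f + 3) := by linear_combination t2
    have hr0 : (0 : ℤ) < r := by
      have : 0 < r := by omega
      exact_mod_cast this
    have e3 : (m : ℤ) * (m + 1) = φ * (φ + 1) := mul_left_cancel₀ hr0.ne' (e1.trans e2.symm)
    have hmφ : m = φ := by
      have hm0 : (0 : ℤ) ≤ m := Int.natCast_nonneg m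
      have hφ0 : (0 : ℤ) ≤ φ := Int.natCast_nonneg φ
      have h8 : ((m : ℤ) - φ) * (m + φ + 1) = 0 := by linear_combination e3
      rcases mul_eq_zero.1 h8 with h9 | h9
      · exact_mod_cast (show (m : ℤ) = φ by linarith)
      · exfalso; linarith
    subst hmφ
    refine ⟨by exact_mod_cast e1, A, by
      rw [SH.sys_eq]
      exact (SH.mem_VS _ _ _ _).2 ⟨hA.hom, fun j => (hA.ord j).1⟩, hA.ne,
      fun i hi => (hA.ord i).2 ((t_link ℂ (P i) (m + 1) A f hA.hom).2 hi), ?_⟩
    rcases hA.orb with h2 | ⟨e, y, x, G, g1, g2, g3, g4, g5⟩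
    · exact Or.inl h2
    · exact Or.inr ⟨e, y, x, G, g1, g2.symm, g3.symm, g4, fun i => SH.curve_iff.2 (g5 i)⟩

end Pool.Agent.Results.MP_8707bd_ag.UniformIrreducible
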